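import Pool.Agent.H83.HE.Stm

set_option autoImplicit false

namespace Pool.Agent.H13.HE

open Pool.Agent.H83.HE

theorem t_ALG : S_ALG := by
  intro q a12 a22 a13 a23 a33 m n hq ⟨k1, hk1⟩ hdet ⟨k2, hk2⟩
  have hd : q * (a12 * n + a13) - a12 * (q * n + a33) = 1 := by
    have := hdet
    simp only [H, Matrix.det_fin_three, Matrix.of_apply, Matrix.cons_val', Matrix.cons_val_zero,
      Matrix.cons_val_one, Matrix.cons_val, Matrix.empty_val', Matrix.cons_val_fin_one] at this
    linarith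
  set c1 := a12 * n + a13 with hc1
  set c2 := m + a22 * n + a23 with hc2
  set l := q * n + a33 with hl
  have hM : H 0 1 a12 a22 q a13 a23 a33 m n = !![0, a12, c1; 1, a22, c2; 0, q, l] := by
    simp only [H, hc1, hc2, hl]
    congr 1
    simp
  rw [hM]
  have he : a12 ^ 2 - a22 + l = q * (c1 * (a12 ^ 2 - a22) - l * k1) := by
    linear_combination (-l) * hk1 - (a12 ^ 2 - a22) * hd
  have hE : (!![0, a12, c1; 1, a22, c2; 0, q, l] ^ 2 - a22 • !![0, a12, c1; 1, a22, c2; 0, q, l] -
      a12 • (1 : Matrix (Fin 3) (Fin 3) ℤ)) =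
      !![0, q * c1, a12 * c2 + c1 * l - a22 * c1; 0, q * c2, c1 + c2 * l;
        q, l * q, q * c2 + l ^ 2 - a22 * l - a12] := by
    rw [pow_two, Matrix.mul_fin_three, Matrix.one_fin_three]
    ext i j
    fin_cases i <;> fin_cases j <;> simp <;> ring
  rw [hE]
  intro i j
  fin_cases i <;> fin_cases j
  · simp
  · simp
  · simp
    exact ⟨c1 * (c1 * (a12 ^ 2 - a22) - l * k1) - a12 * k2, by
      linear_combination c1 * he - a12 * hk2⟩
  · simp
  · simp
  · simp
    exact ⟨c1 ^ 2 - k2 * l, by linear_combination (-l) * hk2 - c1 * hd⟩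
  · simp
  · simp
  · simp
    exact ⟨c2 + l * (c1 * (a12 ^ 2 - a22) - l * k1) - a12 * c1, by
      linear_combination l * he + a12 * hd⟩

end Pool.Agent.H13.HE
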